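import Pool.Agent.H695R3.PP.Stmts

/-! # Project H695-LP, task J: the first negative moment decays exponentially (helper643) -/

set_option autoImplicit false

open scoped BigOperators ENNReal
open MeasureTheory

namespace Pool.Agent.H643R3.PPJ

open Pool.Agent.H695R3.PP

/-- one step -/
noncomputable def sp (c : ℝ) (v : ℝ × ℝ) : ℝ × ℝ := (c * v.1 - v.2, v.1)

theorem sp_meas : Measurable fun p : ℝ × (ℝ × ℝ) => sp p.1 p.2 := by
  unfold sp
  fun_prop

/-- the state after `n` steps, from the state `v` before step `k` -/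
noncomputable def st (V : ℤ → ℝ) (E : ℝ) (b : ℤ) : ℕ → ℕ → ℝ × ℝ → ℝ × ℝ
  | 0, _, v => v
  | (n + 1), k, v => st V E b n (k + 1) (sp (E - V (b - k)) v)

theorem st_rsol (V : ℤ → ℝ) (E : ℝ) (b : ℤ) (n k : ℕ) :
    st V E b n k (rsol V E b k) = rsol V E b (k + n) := by
  induction n generalizing k with
  | zero => rfl
  | succ n ih =>
    have h := ih (k + 1)
    have e : sp (E - V (b - k)) (rsol V E b k) = rsol V E b (k + 1) := rfl
    rw [st, e, h]
    congr 1
    ring

theorem st_congr (V V' : ℤ → ℝ) (E : ℝ) (b : ℤ) (n k : ℕ) (v : ℝ × ℝ)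
    (h : ∀ j : ℕ, k ≤ j → V (b - j) = V' (b - j)) : st V E b n k v = st V' E b n k v := by
  induction n generalizing k v with
  | zero => rfl
  | succ n ih =>
    rw [st, st, h k (le_refl _)]
    exact ih (k + 1) _ fun j hj => h j (by omega)

noncomputable def len (v : ℝ × ℝ) : ℝ := Real.sqrt (v.1 ^ 2 + v.2 ^ 2)

noncomputable def Ph (v : ℝ × ℝ) : ℝ≥0∞ := ENNReal.ofReal (1 / len v)

theorem Ph_meas : Measurable Ph := by
  unfold Ph len
  fun_prop

/-- the expectation of the inverse length after `n` steps -/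
noncomputable def JJ (ε E : ℝ) (W : ℤ → ℝ) (b : ℤ) : ℕ → ℕ → ℝ × ℝ → ℝ≥0∞
  | 0, _, v => Ph v
  | (n + 1), k, v => ∫⁻ s, JJ ε E W b n (k + 1) (sp (E - (W (b - k) + ε * s)) v) ∂U

theorem JJ_meas (ε E : ℝ) (W : ℤ → ℝ) (b : ℤ) (n k : ℕ) : Measurable (JJ ε E W b n k) := by
  induction n generalizing k with
  | zero => exact Ph_meas
  | succ n ih =>
    have h : Measurable fun p : (ℝ × ℝ) × ℝ =>
        JJ ε E W b n (k + 1) (sp (E - (W (b - k) + ε * p.2)) p.1) := by
      have h2 : Measurable fun p : (ℝ × ℝ) × ℝ => sp (E - (W (b - k) + ε * p.2)) p.1 := by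
        unfold sp
        fun_prop
      exact (ih (k + 1)).comp h2
    exact h.lintegral_prod_right'

theorem st_meas (ε E : ℝ) (W : ℤ → ℝ) (b : ℤ) (n k : ℕ) (f : (ℤ → ℝ) → ℝ × ℝ)
    (hf : Measurable f) :
    Measurable fun x : ℤ → ℝ => st (fun m => W m + ε * x m) E b n k (f x) := by
  induction n generalizing k f with
  | zero => exact hf
  | succ n ih =>
    refine ih (k + 1) (fun x => sp (E - (W (b - k) + ε * x (b - k))) (f x)) ?_
    refine sp_meas.comp (Measurable.prodMk ?_ hf)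
    fun_prop

theorem main_eq (hR : TaskResample) (ε E : ℝ) (W : ℤ → ℝ) (b : ℤ) (n k : ℕ) (v : ℝ × ℝ) :
    ∫⁻ x, Ph (st (fun m => W m + ε * x m) E b n k v) ∂PZ = JJ ε E W b n k v := by
  induction n generalizing k v with
  | zero =>
    simp only [st, JJ, lintegral_const, measure_univ, mul_one]
  | succ n ih =>
    set F : (ℤ → ℝ) → ℝ≥0∞ := fun x => Ph (st (fun m => W m + ε * x m) E b (n + 1) k v) with hF
    have hFm : Measurable F := Ph_meas.comp (st_meas ε E W b (n + 1) k (fun _ => v)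
      measurable_const)
    have hmap := hR ℤ (fun _ => ℝ) (fun _ => U) (b - k)
    have hupd : Measurable fun p : (ℤ → ℝ) × ℝ => Function.update p.1 (b - k) p.2 := by
      refine measurable_pi_iff.2 fun j => ?_
      by_cases hj : j = b - k
      · subst hj
        simpa using measurable_snd
      · simp only [Function.update_of_ne hj]
        exact (measurable_pi_apply j).comp measurable_fst
    have h1 : ∫⁻ x, F x ∂PZ = ∫⁻ p, F (Function.update p.1 (b - k) p.2) ∂(PZ.prod U) := by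
      have e : PZ = Measure.map (fun p : (ℤ → ℝ) × ℝ => Function.update p.1 (b - k) p.2)
          (PZ.prod U) := hmap.symm
      conv_lhs => rw [e]
      rw [lintegral_map hFm hupd]
    rw [h1, lintegral_prod_symm' (fun p : (ℤ → ℝ) × ℝ => F (Function.update p.1 (b - k) p.2))
      (hFm.comp hupd)]
    rw [JJ]
    refine lintegral_congr fun s => ?_
    rw [← ih (k + 1)]
    refine lintegral_congr fun x => ?_
    simp only [hF, st, Function.update_self]
    congr 1
    refine st_congr _ _ _ _ _ _ _ fun j hj => ?_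
    have : (b - (j : ℤ)) ≠ b - k := by omega
    rw [Function.update_of_ne this]

theorem Ph_smul (l : ℝ) (hl : l ≠ 0) (v : ℝ × ℝ) :
    Ph (l * v.1, l * v.2) = ENNReal.ofReal |l|⁻¹ * Ph v := by
  unfold Ph len
  rw [← ENNReal.ofReal_mul (by positivity)]
  congr 1
  have e : (l * v.1) ^ 2 + (l * v.2) ^ 2 = l ^ 2 * (v.1 ^ 2 + v.2 ^ 2) := by ring
  simp only
  rw [e, Real.sqrt_mul (by positivity), Real.sqrt_sq_eq_abs]
  rw [one_div, mul_inv, one_div]

theorem JJ_smul (ε E : ℝ) (W : ℤ → ℝ) (b : ℤ) (n k : ℕ) (l : ℝ) (hl : l ≠ 0) (v : ℝ × ℝ) :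
    JJ ε E W b n k (l * v.1, l * v.2) = ENNReal.ofReal |l|⁻¹ * JJ ε E W b n k v := by
  induction n generalizing k v with
  | zero => exact Ph_smul l hl v
  | succ n ih =>
    rw [JJ, JJ, ← lintegral_const_mul']
    · refine lintegral_congr fun s => ?_
      rw [← ih]
      congr 1
      unfold sp
      simp only [Prod.mk.injEq, and_true]
      ring
    · exact ENNReal.ofReal_ne_top

theorem U_neg (f : ℝ → ℝ≥0∞) : ∫⁻ s, f (-s) ∂U = ∫⁻ s, f s ∂U := by
  unfold U
  rw [lintegral_smul_measure, lintegral_smul_measure]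
  congr 1
  have h := (Measure.measurePreserving_neg (volume : Measure ℝ)).restrict_preimage_emb
    (MeasurableEquiv.neg ℝ).measurableEmbedding (Set.Icc (-1 : ℝ) 1)
  have e : (Neg.neg ⁻¹' Set.Icc (-1 : ℝ) 1) = Set.Icc (-1 : ℝ) 1 := by
    ext x
    simp only [Set.mem_preimage, Set.mem_Icc]
    constructor <;> rintro ⟨h1, h2⟩ <;> constructor <;> linarith
  rw [e] at h
  exact h.lintegral_comp_emb (MeasurableEquiv.neg ℝ).measurableEmbedding f

noncomputable def gg (ε E : ℝ) (W : ℤ → ℝ) (b : ℤ) (n k : ℕ) (z : ℝ) : ℝ≥0∞ :=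
  JJ ε E W b n k (z, 1)

theorem gg_meas (ε E : ℝ) (W : ℤ → ℝ) (b : ℤ) (n k : ℕ) : Measurable (gg ε E W b n k) := by
  refine (JJ_meas ε E W b n k).comp ?_
  fun_prop

theorem gg_succ (ε E : ℝ) (W : ℤ → ℝ) (b : ℤ) (n k : ℕ) (z : ℝ) (hz : z ≠ 0) :
    gg ε E W b (n + 1) k z =
      UR (E - W (b - k)) (avg ε (gg ε E W b n (k + 1))) z := by
  unfold UR avg
  rw [← U_neg]
  unfold gg
  rw [JJ, ← lintegral_const_mul']
  · refine lintegral_congr fun s => ?_
    rw [← JJ_smul _ _ _ _ _ _ z hz]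
    congr 1
    unfold sp
    simp only [Prod.mk.injEq, mul_one, and_true]
    field_simp
    ring
  · exact ENNReal.ofReal_ne_top

theorem avg_congr (ε : ℝ) (hε : 0 < ε) (g g' : ℝ → ℝ≥0∞) (h : ∀ z, z ≠ 0 → g z = g' z) :
    avg ε g = avg ε g' := by
  funext x
  unfold avg
  refine lintegral_congr_ae ?_
  unfold U
  refine Measure.ae_smul_measure ?_ _
  refine ae_restrict_of_ae ?_
  have : ∀ᵐ s : ℝ, s ≠ -x / ε := by
    rw [ae_iff]
    simp
  filter_upwards [this] with s hs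
  apply h
  intro h0
  apply hs
  field_simp
  linarith

theorem nsqL_congr (g g' : ℝ → ℝ≥0∞) (h : ∀ z, z ≠ 0 → g z = g' z) : nsqL g = nsqL g' := by
  unfold nsqL
  refine lintegral_congr_ae ?_
  have : ∀ᵐ s : ℝ, s ≠ 0 := by
    rw [ae_iff]
    simp
  filter_upwards [this] with s hs
  rw [h s hs]

theorem nsq_zero (ε E : ℝ) (W : ℤ → ℝ) (b : ℤ) (k : ℕ) :
    nsqL (gg ε E W b 0 k) = ENNReal.ofReal Real.pi := by
  unfold nsqL gg JJ Ph len
  rw [← integral_univ_inv_one_add_sq, ofReal_integral_eq_lintegral_ofReal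
    integrable_inv_one_add_sq (Filter.Eventually.of_forall fun x => by positivity)]
  refine lintegral_congr fun z => ?_
  rw [← ENNReal.ofReal_pow (by positivity), div_pow, Real.sq_sqrt (by positivity)]
  congr 1
  rw [one_pow, one_div]
  congr 1
  ring

theorem taskJ : TaskResample → TaskContr → TaskIso → TaskAvg → TaskJ := by
  intro hR hC hI hA
  obtain ⟨c, hc0, hc1, hc⟩ := hC
  refine ⟨c / 4, 4, by positivity, by linarith, by norm_num, ?_⟩
  intro ε E W b L hε hε1
  have hu0 : 0 ≤ 1 - c * ε ^ 2 := by nlinarith [sq_nonneg ε]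
  -- two steps
  have h1 : ∀ n k, nsqL (gg ε E W b (n + 1) k) ≤ nsqL (gg ε E W b n (k + 1)) := by
    intro n k
    obtain ⟨a1, a2, _, _⟩ := hA ε (gg ε E W b n (k + 1)) hε hε1 (gg_meas ε E W b n (k + 1))
    rw [nsqL_congr _ _ (gg_succ ε E W b n k), (hI _ _ a1).1]
    exact a2
  have h2 : ∀ n k, nsqL (gg ε E W b (n + 2) k) ≤
      ENNReal.ofReal (1 - c * ε ^ 2) * nsqL (gg ε E W b n (k + 2)) := by
    intro n k
    obtain ⟨a1, _, _, _⟩ := hA ε (gg ε E W b (n + 1) (k + 1)) hε hε1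
      (gg_meas ε E W b (n + 1) (k + 1))
    rw [nsqL_congr _ _ (gg_succ ε E W b (n + 1) k), (hI _ _ a1).1,
      avg_congr ε hε _ _ (gg_succ ε E W b n (k + 1))]
    exact hc ε _ _ hε hε1 (gg_meas ε E W b n (k + 1 + 1))
  have h3 : ∀ m n k : ℕ, n = 2 * m ∨ n = 2 * m + 1 →
      nsqL (gg ε E W b n k) ≤ ENNReal.ofReal (Real.pi * (1 - c * ε ^ 2) ^ m) := by
    intro m
    induction m with
    | zero =>
      intro n k hn
      rw [pow_zero, mul_one]
      rcases hn with hn | hn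
      · rw [hn, Nat.mul_zero, nsq_zero]
      · rw [hn]
        exact (h1 0 k).trans (le_of_eq (nsq_zero ε E W b (k + 1)))
    | succ m ih =>
      intro n k hn
      obtain ⟨n', rfl⟩ : ∃ n', n = n' + 2 := ⟨n - 2, by omega⟩
      refine (h2 n' k).trans ?_
      have := ih n' (k + 2) (by omega)
      refine (mul_le_mul_right this _).trans ?_
      rw [← ENNReal.ofReal_mul hu0]
      refine ENNReal.ofReal_le_ofReal (le_of_eq ?_)
      ring
  -- the integral
  have h4 : ∫⁻ x, ENNReal.ofReal (1 / rlen (fun n => W n + ε * x n) E b L) ∂PZ =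
      JJ ε E W b L 0 (1, 0) := by
    rw [← main_eq hR]
    refine lintegral_congr fun x => ?_
    have := st_rsol (fun n => W n + ε * x n) E b L 0
    rw [Nat.zero_add] at this
    have e : rsol (fun n => W n + ε * x n) E b 0 = (1, 0) := rfl
    rw [e] at this
    rw [this]
    rfl
  rw [h4]
  set w : ℝ := 1 - c / 4 * ε ^ 2 with hw
  have hcε : c * ε ^ 2 ≤ 1 / 2 := by nlinarith [sq_nonneg ε]
  have hcε0 : 0 ≤ c * ε ^ 2 := by positivity
  have hw0 : 7 / 8 ≤ w := by rw [hw]; linarith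
  have hw1 : w ≤ 1 := by rw [hw]; linarith
  rcases L with _ | n
  · have e : JJ ε E W b 0 0 (1, 0) = 1 := by
      simp [JJ, Ph, len]
    rw [e, pow_zero, mul_one, ← ENNReal.ofReal_one]
    refine ENNReal.ofReal_le_ofReal ?_
    rw [le_div_iff₀ hε]
    linarith
  · have e : JJ ε E W b (n + 1) 0 (1, 0) = avg ε (gg ε E W b n 1) (E - W (b - (0 : ℕ))) := by
      unfold avg
      rw [← U_neg, JJ]
      refine lintegral_congr fun s => ?_
      unfold gg sp
      congr 1
      simp only [Prod.mk.injEq, and_true]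
      ring
    rw [e]
    obtain ⟨_, _, _, a4⟩ := hA ε (gg ε E W b n 1) hε hε1 (gg_meas ε E W b n 1)
    refine (a4 _).trans ?_
    have h5 := h3 (n / 2) n 1 (by omega)
    have h6 : nsqL (gg ε E W b n 1) ^ (1 / 2 : ℝ) ≤
        ENNReal.ofReal (Real.sqrt (Real.pi * (1 - c * ε ^ 2) ^ (n / 2))) := by
      rw [Real.sqrt_eq_rpow, ← ENNReal.ofReal_rpow_of_nonneg (by positivity) (by norm_num)]
      exact ENNReal.rpow_le_rpow h5 (by norm_num)
    refine (mul_le_mul_right h6 _).trans ?_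
    rw [← ENNReal.ofReal_mul (by positivity)]
    refine ENNReal.ofReal_le_ofReal ?_
    have hsε : ε ≤ Real.sqrt ε := by
      rw [Real.le_sqrt hε.le hε.le]
      nlinarith
    have h7 : 1 / Real.sqrt ε ≤ 1 / ε := one_div_le_one_div_of_le hε hsε
    have h8 : (1 - c * ε ^ 2) ≤ w ^ 4 := by
      have : w ^ 4 = (1 - c / 4 * ε ^ 2) ^ 4 := by rw [hw]
      rw [this]
      nlinarith [mul_nonneg hcε0 hcε0, mul_nonneg (mul_nonneg hcε0 hcε0) hcε0,
        mul_nonneg (mul_nonneg hcε0 hcε0) (sub_nonneg.2 hcε)]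
    have h9 : Real.sqrt (Real.pi * (1 - c * ε ^ 2) ^ (n / 2)) ≤ 2 * w ^ (2 * (n / 2)) := by
      rw [Real.sqrt_le_left (by positivity)]
      have h10 : (1 - c * ε ^ 2) ^ (n / 2) ≤ (w ^ 4) ^ (n / 2) := pow_le_pow_left₀ hu0 h8 _
      have h11 : (2 * w ^ (2 * (n / 2))) ^ 2 = 4 * (w ^ 4) ^ (n / 2) := by
        rw [mul_pow, ← pow_mul, ← pow_mul]
        norm_num
        congr 1
        ring
      rw [h11]
      have hpi := Real.pi_le_four
      have h12 : 0 ≤ (w ^ 4) ^ (n / 2) := by positivity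
      calc Real.pi * (1 - c * ε ^ 2) ^ (n / 2) ≤ Real.pi * (w ^ 4) ^ (n / 2) :=
            mul_le_mul_of_nonneg_left h10 Real.pi_pos.le
        _ ≤ 4 * (w ^ 4) ^ (n / 2) := mul_le_mul_of_nonneg_right hpi h12
    have h13 : w ^ (2 * (n / 2)) ≤ 2 * w ^ (n + 1) := by
      have h14 : w ^ (2 * (n / 2) + 2) ≤ w ^ (n + 1) :=
        pow_le_pow_of_le_one (by linarith) hw1 (by omega)
      rw [pow_add] at h14
      have h15 : 0 ≤ w ^ (2 * (n / 2)) := by positivity
      nlinarith
    calc 1 / Real.sqrt ε * Real.sqrt (Real.pi * (1 - c * ε ^ 2) ^ (n / 2)) ≤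
          1 / ε * (2 * (2 * w ^ (n + 1))) := by
          refine mul_le_mul h7 (h9.trans ?_) (Real.sqrt_nonneg _) (by positivity)
          linarith
      _ = 4 / ε * w ^ (n + 1) := by ring

end Pool.Agent.H643R3.PPJ
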